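import Pool.Agent.Helper10.AB.GoalsF1

/-! # Project AB, packet UNQ: uniqueness of the weighted projection -/

open MeasureTheory Set Filter Topology
open scoped ContDiff

noncomputable section

namespace Pool.Agent.Helper60.AB

open Pool.Agent.Helper24.AB
open Pool.Agent.Helper10.AB

theorem isOpen_strip (a : ℝ) : IsOpen (strip a) := by
  have : strip a = (fun w : ℂ => |w.re|) ⁻¹' Iio a := rfl
  rw [this]
  exact isOpen_Iio.preimage (Complex.continuous_re.abs)

theorem unq : S_UNQ := by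
  intro a Φ F g₁ g₂ ha hΦ hF hg₁ hg₂ hm₁ hm₂ h₁ h₂
  set G₁ : ℂ → ℂ := fun w => (Real.exp (-Φ w) : ℂ) * g₁ w with hG₁
  set G₂ : ℂ → ℂ := fun w => (Real.exp (-Φ w) : ℂ) * g₂ w with hG₂
  set d : ℂ → ℂ := fun w => g₁ w - g₂ w with hd
  set E : ℂ → ℂ := fun w => (Real.exp (-Φ w) : ℂ) * d w with hE
  have hdd : DifferentiableOn ℂ d (strip a) := hg₁.sub hg₂
  have hEG : E = fun w => G₁ w - G₂ w := by
    funext w; simp only [hE, hG₁, hG₂, hd]; ring
  have hEm : MemLp E 2 (muS a) := by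
    rw [hEG]; exact hm₁.sub hm₂
  have e₁ := h₁ d hdd hEm
  have e₂ := h₂ d hdd hEm
  have hEs : MemLp (fun w => (starRingEnd ℂ) (E w)) 2 (muS a) := hEm.star
  have i₁ : Integrable (fun w => (F w - G₁ w) * (starRingEnd ℂ) (E w)) (muS a) :=
    (hF.sub hm₁).integrable_mul hEs
  have i₂ : Integrable (fun w => (F w - G₂ w) * (starRingEnd ℂ) (E w)) (muS a) :=
    (hF.sub hm₂).integrable_mul hEs
  have key : ∫ w in strip a, ((‖E w‖ ^ 2 : ℝ) : ℂ) = 0 := by
    have : ∀ w, ((‖E w‖ ^ 2 : ℝ) : ℂ) =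
        (F w - G₂ w) * (starRingEnd ℂ) (E w) - (F w - G₁ w) * (starRingEnd ℂ) (E w) := by
      intro w
      have h1 : (F w - G₂ w) * (starRingEnd ℂ) (E w) - (F w - G₁ w) * (starRingEnd ℂ) (E w) =
          E w * (starRingEnd ℂ) (E w) := by
        rw [hEG]; ring
      rw [h1, Complex.mul_conj, Complex.normSq_eq_norm_sq]
    simp_rw [this]
    rw [integral_sub i₂ i₁]
    rw [show ∫ w in strip a, (F w - G₂ w) * (starRingEnd ℂ) (E w) = 0 from e₂,
      show ∫ w in strip a, (F w - G₁ w) * (starRingEnd ℂ) (E w) = 0 from e₁, sub_zero]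
  have key2 : ∫ w in strip a, ‖E w‖ ^ 2 = 0 := by
    have := integral_ofReal (𝕜 := ℂ) (f := fun w => ‖E w‖ ^ 2) (μ := muS a)
    rw [show (∫ w in strip a, ((‖E w‖ ^ 2 : ℝ) : ℂ)) = _ from this] at key
    exact Complex.ofReal_eq_zero.1 key
  have hint : Integrable (fun w => ‖E w‖ ^ 2) (muS a) := hEm.integrable_norm_pow (by norm_num)
  have hae : (fun w => ‖E w‖ ^ 2) =ᵐ[muS a] 0 :=
    (integral_eq_zero_iff_of_nonneg (fun w => by positivity) hint).1 key2
  have hdae : d =ᵐ[muS a] fun _ => 0 := by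
    filter_upwards [hae] with w hw
    have h0 : E w = 0 := by simpa using hw
    have hne : (Real.exp (-Φ w) : ℂ) ≠ 0 := by
      exact_mod_cast (Real.exp_pos _).ne'
    exact (mul_eq_zero.1 h0).resolve_left hne
  have := Measure.eqOn_open_of_ae_eq hdae (isOpen_strip a) hdd.continuousOn continuousOn_const
  intro w hw
  have h3 := this hw
  simpa [hd, sub_eq_zero] using h3

end Pool.Agent.Helper60.AB
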