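import Pool.Agent.Helper15.AB.GoalsT

/-! # Project AB (MP_1ef41b_an), packet INVF -/

set_option autoImplicit false

open Set

noncomputable section

namespace Pool.Agent.Helper60.AB

open Pool.Agent.Helper24.AB Pool.Agent.Helper15.AB

theorem tE_zero (P : V4) : tE 0 P = P := by
  funext i
  fin_cases i <;> simp [tE]

theorem rel_pow (P : V4) (j : ℤ) : GamRel P ((gE ^ j) P) := ⟨j, 0, (tE_zero _).symm⟩

theorem invf : S_INVF := by
  intro E U f hU hf
  have h1 : ∀ (j : ℤ), ∀ P ∈ U, f ((gE ^ j) P) = f P := by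
    intro j
    induction j using Int.induction_on with
    | zero => intro P _; simp
    | succ n ih =>
      intro P hP
      have h2 : (gE ^ ((n : ℤ) + 1)) P = gE ((gE ^ (n : ℤ)) P) := by
        rw [add_comm, zpow_add, zpow_one]
        rfl
      have h3 := (hf _ (hU P _ (rel_pow P n) hP)).1
      rw [h2, h3, ih P hP]
    | pred n ih =>
      intro P hP
      have h2 : gE ((gE ^ (-(n : ℤ) - 1)) P) = (gE ^ (-(n : ℤ))) P := by
        have h3 : gE * gE ^ (-(n : ℤ) - 1) = gE ^ (-(n : ℤ)) := by
          rw [← zpow_one_add]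
          congr 1
          ring
        rw [← h3]
        rfl
      have h3 := (hf _ (hU P _ (rel_pow P (-(n : ℤ) - 1)) hP)).1
      rw [← h3, h2, ih P hP]
  intro P hP P' hPP'
  obtain ⟨j, k, rfl⟩ := hPP'
  rw [(hf _ (hU P _ (rel_pow P j) hP)).2 k, h1 j P hP]

end Pool.Agent.Helper60.AB
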