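import Pool.Agent.Helper95.AB.GoalsW
import Pool.Agent.Helper27.PCap.Circ
import Pool.Agent.Helper25.PCap.PkQG
import Pool.Agent.Helper5.AB.SMV

/-! # Project AB (MP_1ef41b_an), packet GAUSS: the divergence theorem for the Laplacian on a disc -/

set_option autoImplicit false

open MeasureTheory Set Filter Topology
open scoped ContDiff Real

noncomputable section

namespace Pool.Agent.Helper60.AB

open Pool.Agent.Helper24.AB Pool.Agent.Helper95.AB
open Pool.Agent.Helper25.PCap (D1 D2 cmean)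
open Pool.Agent.Helper5.AB (eC eC_apply D1_comp D2_comp)
open Pool.Agent.Helper27.PCap (gam gam_mem continuous_gam hasDerivAt_param hasDerivAt_r)

/-- polar coordinates on a disc for a function continuous on the closed disc -/
theorem disc' (ψ : ℝ × ℝ → ℝ) (c : ℝ × ℝ) (ρ : ℝ) (hρ : 0 ≤ ρ)
    (hψ : ContinuousOn ψ (Pool.Agent.Helper25.PCap.PkQG.BD c ρ)) :
    ∫ y in Pool.Agent.Helper25.PCap.PkQG.BD c ρ, ψ y
      = 2 * π * ∫ s in (0 : ℝ)..ρ, s * cmean ψ c s := by
  set S := Pool.Agent.Helper25.PCap.PkQG.BD c ρ with hS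
  have hcl : IsClosed S := by
    apply isClosed_le
    · fun_prop
    · fun_prop
  obtain ⟨g, hg⟩ := ContinuousMap.exists_restrict_eq hcl ⟨S.domRestrict ψ, hψ.domRestrict⟩
  have hgS : ∀ y ∈ S, g y = ψ y := by
    intro y hy
    have h := congrArg (fun f : C(S, ℝ) => f ⟨y, hy⟩) hg
    exact h
  have h1 := Pool.Agent.Helper25.PCap.PkQG.disc g g.continuous c ρ hρ
  have h2 : ∫ y in S, ψ y = ∫ y in S, g y :=
    setIntegral_congr_fun (Pool.Agent.Helper25.PCap.PkQG.meas_BD c ρ) fun y hy => (hgS y hy).symm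
  rw [h2, h1]
  congr 1
  apply intervalIntegral.integral_congr
  intro s hs
  rw [uIcc_of_le hρ] at hs
  simp only []
  congr 1
  unfold cmean
  congr 1
  apply intervalIntegral.integral_congr
  intro φ _
  simp only []
  apply hgS
  rw [hS]
  unfold Pool.Agent.Helper25.PCap.PkQG.BD
  simp only [mem_ofPred_eq]
  have h3 := Real.sin_sq_add_cos_sq φ
  have h4 : (c.1 + s * Real.cos φ - c.1) ^ 2 + (c.2 + s * Real.sin φ - c.2) ^ 2 = s ^ 2 := by
    linear_combination s ^ 2 * h3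
  rw [h4]
  exact pow_le_pow_left₀ hs.1 hs.2 2

theorem mem_BD_iff (x : ℂ) (r : ℝ) (hr : 0 ≤ r) (y : ℝ × ℝ) :
    y ∈ Pool.Agent.Helper25.PCap.PkQG.BD (x.re, x.im) r ↔ eC y ∈ Metric.closedBall x r := by
  have h2 : ‖eC y - x‖ ^ 2 = (y.1 - x.re) ^ 2 + (y.2 - x.im) ^ 2 := by
    rw [← Complex.normSq_eq_norm_sq, Complex.normSq_apply, eC_apply]
    simp
    ring
  rw [mem_closedBall_iff_norm]
  unfold Pool.Agent.Helper25.PCap.PkQG.BD
  simp only [mem_ofPred_eq]
  rw [← h2]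
  constructor
  · intro h
    exact (abs_le_of_sq_le_sq' h hr).2
  · intro h
    exact pow_le_pow_left₀ (norm_nonneg _) h 2

theorem gauss : S_GAUSS := by
  intro Φ O x r hr hO hΦ hb
  -- a slightly larger disc
  obtain ⟨δ, hδ, hδO⟩ := (isCompact_closedBall x r).exists_cthickening_subset_open hO hb
  rw [cthickening_closedBall hδ.le hr.le] at hδO
  set R := δ + r with hR
  have hR0 : 0 < R := by linarith
  have hrR : r ∈ Ioo 0 R := ⟨hr, by linarith⟩
  set ψ : ℝ × ℝ → ℝ := fun y => Φ (eC y) with hψ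
  have hOo : IsOpen (eC ⁻¹' O) := hO.preimage eC.continuous
  have hψs : ContDiffOn ℝ ∞ ψ (eC ⁻¹' O) := hΦ.comp eC.contDiff.contDiffOn (fun p hp => hp)
  have hψ2 : ContDiffOn ℝ 2 ψ (eC ⁻¹' O) := hψs.of_le (WithTop.coe_le_coe.2 (le_top : (2 : ℕ∞) ≤ ⊤))
  have hsub : {y : ℝ × ℝ | (y.1 - (x.re, x.im).1) ^ 2 + (y.2 - (x.re, x.im).2) ^ 2 ≤ R ^ 2} ⊆
      eC ⁻¹' O := by
    intro y hy
    exact hδO ((mem_BD_iff x R hR0.le y).1 hy)
  have hlap : ∀ y, D1 (D1 ψ) y + D2 (D2 ψ) y = lapC Φ (eC y) := by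
    intro y
    rw [hψ, D1_comp, D1_comp, D2_comp, D2_comp]
    rfl
  obtain ⟨h1, h2, h3, h4⟩ :=
    Pool.Agent.Helper27.PCap.pkCirc ψ (x.re, x.im) R _ hR0 hOo hsub hψ2
  have h5 := h4 r hrR
  -- the direct derivative
  have hnO : ∀ z ∈ eC ⁻¹' O, eC ⁻¹' O ∈ 𝓝 z := fun z hz => hOo.mem_nhds hz
  have hfd : ContDiffOn ℝ 1 (fderiv ℝ ψ) (eC ⁻¹' O) := hψ2.fderiv_of_isOpen hOo (by norm_num)
  have hD1 : ContinuousOn (D1 ψ) (eC ⁻¹' O) :=
    (hfd.clm_apply contDiffOn_const).continuousOn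
  have hD2 : ContinuousOn (D2 ψ) (eC ⁻¹' O) :=
    (hfd.clm_apply contDiffOn_const).continuousOn
  have hcg : ∀ g : ℝ × ℝ → ℝ, ContinuousOn g (eC ⁻¹' O) →
      ContinuousOn (fun p : ℝ × ℝ => g (gam (x.re, x.im) p.1 p.2)) (Icc 0 R ×ˢ univ) := by
    intro g hg
    exact hg.comp (continuous_gam _).continuousOn (fun p hp => gam_mem hsub hp.1 p.2)
  have hcos : ContinuousOn (fun p : ℝ × ℝ => Real.cos p.2) (Icc 0 R ×ˢ univ) := by fun_prop
  have hsin : ContinuousOn (fun p : ℝ × ℝ => Real.sin p.2) (Icc 0 R ×ˢ univ) := by fun_prop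
  set A : ℝ × ℝ → ℝ := fun p => Real.cos p.2 * D1 ψ (gam (x.re, x.im) p.1 p.2) +
    Real.sin p.2 * D2 ψ (gam (x.re, x.im) p.1 p.2) with hA
  have hAc : ContinuousOn A (Icc 0 R ×ˢ univ) :=
    (hcos.mul (hcg _ hD1)).add (hsin.mul (hcg _ hD2))
  have hM : HasDerivAt (fun s => ∫ φ in (0 : ℝ)..(2 * π), ψ (gam (x.re, x.im) s φ))
      (∫ φ in (0 : ℝ)..(2 * π), A (r, φ)) r :=
    hasDerivAt_param (F := fun p => ψ (gam (x.re, x.im) p.1 p.2)) (F' := A)
      (hcg ψ hψs.continuousOn) hAc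
      (fun s hs φ => hasDerivAt_r (((hψ2.differentiableOn (by norm_num)).differentiableAt
        (hnO _ (gam_mem hsub ⟨hs.1.le, hs.2.le⟩ φ))))) hrR
  have hM2 : HasDerivAt (cmean ψ (x.re, x.im)) (1 / (2 * π) *
      ∫ φ in (0 : ℝ)..(2 * π), A (r, φ)) r := hM.const_mul (1 / (2 * π))
  have h6 := h5.unique hM2
  have hπ := Real.pi_pos
  have h7 : r * ∫ φ in (0 : ℝ)..(2 * π), A (r, φ) = 2 * π * ∫ s in (0 : ℝ)..r,
      s * cmean (fun y => D1 (D1 ψ) y + D2 (D2 ψ) y) (x.re, x.im) s := by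
    have h8 : (∫ φ in (0 : ℝ)..(2 * π), A (r, φ)) = 2 * π * (1 / r * ∫ s in (0 : ℝ)..r,
        s * cmean (fun y => D1 (D1 ψ) y + D2 (D2 ψ) y) (x.re, x.im) s) := by
      rw [h6]
      field_simp
    rw [h8]
    field_simp
  -- the right-hand side
  have hA2 : ∀ φ, A (r, φ) = fderiv ℝ Φ (x + r * Complex.exp (φ * Complex.I))
      (Complex.exp (φ * Complex.I)) := by
    intro φ
    have e1 : eC (gam (x.re, x.im) r φ) = x + r * Complex.exp (φ * Complex.I) := by
      rw [eC_apply, Complex.exp_mul_I]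
      unfold gam
      apply Complex.ext <;> simp
    have e2 : Complex.exp (φ * Complex.I) = Real.cos φ • (1 : ℂ) + Real.sin φ • Complex.I := by
      rw [Complex.exp_mul_I]
      apply Complex.ext <;> simp
    simp only [hA, hψ]
    rw [D1_comp, D2_comp]
    simp only []
    rw [e1]
    unfold dS dT
    conv_rhs => rw [e2]
    rw [map_add, map_smul, map_smul, smul_eq_mul, smul_eq_mul]
    rw [← e2]
  have hrhs : (∫ θ in (0 : ℝ)..(2 * Real.pi),
      r * fderiv ℝ Φ (x + r * Complex.exp (θ * Complex.I)) (Complex.exp (θ * Complex.I)))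
      = r * ∫ φ in (0 : ℝ)..(2 * π), A (r, φ) := by
    rw [← intervalIntegral.integral_const_mul]
    apply intervalIntegral.integral_congr
    intro φ _
    simp only []
    rw [hA2]
  -- the left-hand side
  have hLc : ContinuousOn (fun y => D1 (D1 ψ) y + D2 (D2 ψ) y)
      (Pool.Agent.Helper25.PCap.PkQG.BD (x.re, x.im) r) := by
    have hD1s : ContDiffOn ℝ 1 (D1 ψ) (eC ⁻¹' O) := hfd.clm_apply contDiffOn_const
    have hD2s : ContDiffOn ℝ 1 (D2 ψ) (eC ⁻¹' O) := hfd.clm_apply contDiffOn_const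
    have hcD : ∀ g : ℝ × ℝ → ℝ, ContDiffOn ℝ 1 g (eC ⁻¹' O) → ContinuousOn (D1 g) (eC ⁻¹' O) ∧
        ContinuousOn (D2 g) (eC ⁻¹' O) := by
      intro g hg
      have h1 : ContDiffOn ℝ 0 (fderiv ℝ g) (eC ⁻¹' O) := hg.fderiv_of_isOpen hOo (by norm_num)
      exact ⟨h1.continuousOn.clm_apply continuousOn_const,
        h1.continuousOn.clm_apply continuousOn_const⟩
    refine ((hcD _ hD1s).1.add (hcD _ hD2s).2).mono ?_
    intro y hy
    exact hb ((mem_BD_iff x r hr.le y).1 hy)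
  have h9 := disc' (fun y => D1 (D1 ψ) y + D2 (D2 ψ) y) (x.re, x.im) r hr.le hLc
  have h10 : ∫ w in Metric.ball x r, lapC Φ w = ∫ w in Metric.closedBall x r, lapC Φ w := by
    have h11 : volume (Metric.sphere x r) = 0 :=
      Measure.addHaar_sphere_of_ne_zero volume x hr.ne'
    apply setIntegral_congr_set
    rw [← Metric.ball_union_sphere]
    exact (union_ae_eq_left_of_ae_eq_empty (ae_eq_empty.2 h11)).symm
  have h12 : ∫ w in Metric.closedBall x r, lapC Φ w
      = ∫ y in Pool.Agent.Helper25.PCap.PkQG.BD (x.re, x.im) r, lapC Φ (eC y) := by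
    have h13 := Complex.volume_preserving_equiv_real_prod.setIntegral_preimage_emb
      Complex.measurableEquivRealProd.measurableEmbedding (fun y => lapC Φ (eC y))
      (Pool.Agent.Helper25.PCap.PkQG.BD (x.re, x.im) r)
    have e3 : ∀ w : ℂ, eC (Complex.measurableEquivRealProd w) = w := by
      intro w
      rw [eC_apply]
      simp
    have e4 : Complex.measurableEquivRealProd ⁻¹'
        Pool.Agent.Helper25.PCap.PkQG.BD (x.re, x.im) r = Metric.closedBall x r := by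
      ext w
      rw [mem_preimage, mem_BD_iff x r hr.le, e3]
    rw [e4] at h13
    simp only [e3] at h13
    exact h13
  rw [hrhs, h7, ← h9, h10, h12]
  apply setIntegral_congr_fun (Pool.Agent.Helper25.PCap.PkQG.meas_BD _ _)
  intro y _
  exact (hlap y).symm

end Pool.Agent.Helper60.AB
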